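import Mathlib

/-!
# MP_de1832_co, Q2: a triangle graph that is not normal

Let `F` be the triangle-free graph on the vertices `0, ..., 8` formed by the complete bipartite graph
with sides `{2, 3, 4, 5}` and `{6, 7, 8}`, the edge `01` and the edges `02, 03, 14, 15`. The
complement of the line graph of `F` (17 vertices) is a triangle graph and it is not normal.
-/

set_option autoImplicit false

namespace Pool.Agent.Results.MP_de1832_co.NonNormalTriangle

/-- `G` is a triangle graph: for every maximal stable set `S` and every edge `uv` of `G - S` some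
vertex of `S` is adjacent to both `u` and `v`. -/
def IsTriangleGraph {V : Type} (G : SimpleGraph V) : Prop :=
  ∀ S : Set V, Maximal (fun T : Set V => G.IsIndepSet T) S →
    ∀ u v : V, u ∉ S → v ∉ S → G.Adj u v → ∃ w ∈ S, G.Adj w u ∧ G.Adj w v

/-- `G` is normal: there are a family `C` of cliques and a family `D` of stable sets, each covering
all vertices, such that every member of `C` meets every member of `D`. -/
def IsNormal {V : Type} (G : SimpleGraph V) : Prop :=
  ∃ C D : Set (Set V), (∀ K ∈ C, G.IsClique K) ∧ (∀ S ∈ D, G.IsIndepSet S) ∧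
    (∀ v : V, ∃ K ∈ C, v ∈ K) ∧ (∀ v : V, ∃ S ∈ D, v ∈ S) ∧ ∀ K ∈ C, ∀ S ∈ D, (K ∩ S).Nonempty

/-- `masks.getD e 0` has bit `f` set iff the edges `e` and `f` of `F` share an end. The edges of `F`
are `01, 02, 03, 14, 15, 26, 27, 28, 36, 37, 38, 46, 47, 48, 56, 57, 58`. -/
def masks : List ℕ :=
  [31, 231, 1799, 14361, 114713, 18914, 37602, 74978, 20260, 38724, 75652, 31016, 47688, 81032,
    117040, 119376, 124048]

/-- the edges `e` and `f` of `F` share an end -/
def sh (e f : Fin 17) : Bool := (masks.getD e 0).testBit f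

/-- the edges at the vertex `x` of `F` -/
def star (x : Fin 9) : List (Fin 17) :=
  match x with
  | 0 => [0, 1, 2]
  | 1 => [0, 3, 4]
  | 2 => [1, 5, 6, 7]
  | 3 => [2, 8, 9, 10]
  | 4 => [3, 11, 12, 13]
  | 5 => [4, 14, 15, 16]
  | 6 => [5, 8, 11, 14]
  | 7 => [6, 9, 12, 15]
  | 8 => [7, 10, 13, 16]

/-- The graph: the complement of the line graph of `F`. -/
def G : SimpleGraph (Fin 17) where
  Adj e f := sh e f = false
  symm := by
    have h : ∀ e f : Fin 17, sh e f = false → sh f e = false := by decide +kernel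
    exact ⟨fun e f => h e f⟩
  loopless := by
    have h : ∀ e : Fin 17, ¬ sh e e = false := by decide +kernel
    exact ⟨h⟩

lemma sh_symm : ∀ e f : Fin 17, sh e f = sh f e := by decide +kernel

lemma sh_refl : ∀ e : Fin 17, sh e e = true := by decide +kernel

/-- `c` meets all edges which meet both `a` and `b` -/
def Meets (a b c : Fin 17) : Prop := ∀ d : Fin 17, sh d a = true ∧ sh d b = true → sh c d = true

instance (a b c : Fin 17) : Decidable (Meets a b c) := by
  unfold Meets
  infer_instance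

/-- hypotheses on two edges `a`, `b` and two disjoint edges `u`, `v` -/
def Hyp (a b u v : Fin 17) : Prop := sh a b = true ∧ sh a u = false ∧ sh b v = false ∧
    sh a v = true ∧ sh b u = true ∧ sh u v = false

instance (a b u v : Fin 17) : Decidable (Hyp a b u v) := by
  unfold Hyp
  infer_instance

/-- two edges at a vertex `x` and two disjoint edges `u`, `v`: a third edge at `x` misses both -/
lemma third : ∀ a b u v : Fin 17, Hyp a b u v →
    ∃ c : Fin 17, sh c u = false ∧ sh c v = false ∧ Meets a b c := by decide +kernel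

theorem triangle_G : IsTriangleGraph G := by
  intro S hS u v hu hv huv
  have huv' : sh u v = false := huv
  have hind : ∀ a ∈ S, ∀ b ∈ S, sh a b = true := by
    intro a ha b hb
    by_cases hab : a = b
    · rw [hab]
      exact sh_refl b
    · have := hS.prop ha hb hab
      cases h : sh a b
      · exact absurd h this
      · rfl
  -- a vertex meeting all members of `S` belongs to `S`
  have hmax : ∀ c : Fin 17, (∀ d ∈ S, sh c d = true) → c ∈ S := by
    intro c hc
    have h1 : G.IsIndepSet (insert c S) := by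
      intro a ha b hb hab hadj
      have hadj' : sh a b = false := hadj
      rcases ha with rfl | ha
      · rcases hb with rfl | hb
        · exact hab rfl
        · rw [hc b hb] at hadj'
          exact absurd hadj' (by decide)
      · rcases hb with rfl | hb
        · rw [sh_symm, hc a ha] at hadj'
          exact absurd hadj' (by decide)
        · rw [hind a ha b hb] at hadj'
          exact absurd hadj' (by decide)
    exact hS.le_of_ge h1 (Set.subset_insert c S) (Set.mem_insert c S)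
  by_contra hno
  push Not at hno
  have hno' : ∀ w ∈ S, sh w u = false → sh w v = true := by
    intro w hw hwu
    cases h : sh w v
    · exact absurd h (hno w hw hwu)
    · rfl
  have key : ∀ z : Fin 17, z ∉ S → ∃ a ∈ S, sh a z = false := by
    intro z hz
    by_contra hcon
    push Not at hcon
    apply hz
    apply hmax
    intro d hd
    have := hcon d hd
    rw [sh_symm]
    cases h : sh d z
    · exact absurd h this
    · rfl
  obtain ⟨a, ha, hau⟩ := key u hu
  obtain ⟨b, hb, hbv⟩ := key v hv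
  have hav := hno' a ha hau
  have hbu : sh b u = true := by
    cases h : sh b u
    · rw [hno' b hb h] at hbv
      exact absurd hbv (by decide)
    · rfl
  obtain ⟨c, hcu, hcv, hc⟩ := third a b u v ⟨hind a ha b hb, hau, hbv, hav, hbu, huv'⟩
  have hcS : c ∈ S := hmax c (fun d hd => hc d ⟨hind d hd a ha, hind d hd b hb⟩)
  rw [hno' c hcS hcu] at hcv
  exact absurd hcv (by decide)

/-- the ends of the edges of `F` -/
def endsL : List (Fin 9 × Fin 9) :=
  [(0, 1), (0, 2), (0, 3), (1, 4), (1, 5), (2, 6), (2, 7), (2, 8), (3, 6), (3, 7), (3, 8), (4, 6),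
    (4, 7), (4, 8), (5, 6), (5, 7), (5, 8)]

/-- `F` has no triangle -/
lemma no_triangle : ∀ e a b : Fin 17, sh e a = true ∧ sh e b = true ∧ sh a b = true →
    a ∈ star (endsL.getD e (0, 0)).1 ∨ b ∈ star (endsL.getD e (0, 0)).2 := by decide +kernel

/-- equal or disjoint -/
def Q (e f : Fin 17) : Bool := decide (e = f) || !(sh e f)

lemma caseA : ∀ f2 ∈ star 2, ∀ f3 ∈ star 3, ∀ f4 ∈ star 4, ∀ f5 ∈ star 5,
    (Q 0 f2 && Q 0 f3 && Q 0 f4 && Q 0 f5 && Q f2 f3 && Q f2 f4 && Q f2 f5 && Q f3 f4 && Q f3 f5 &&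
      Q f4 f5) = false := by decide +kernel

lemma caseC : ∀ f0 ∈ star 0, ∀ f6 ∈ star 6, ∀ f7 ∈ star 7, ∀ f8 ∈ star 8,
    (Q 3 f0 && Q 3 f6 && Q 3 f7 && Q 3 f8 && Q f0 f6 && Q f0 f7 && Q f0 f8 && Q f6 f7 && Q f6 f8 &&
      Q f7 f8) = false := by decide +kernel

lemma caseD : ∀ f1 ∈ star 1, ∀ f6 ∈ star 6, ∀ f7 ∈ star 7, ∀ f8 ∈ star 8,
    (Q 1 f1 && Q 1 f6 && Q 1 f7 && Q 1 f8 && Q f1 f6 && Q f1 f7 && Q f1 f8 && Q f6 f7 && Q f6 f8 &&
      Q f7 f8) = false := by decide +kernel

/-- the edge with given ends -/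
lemma edge_of : ∀ p ∈ ([2, 3, 4, 5] : List (Fin 9)), ∀ q ∈ ([6, 7, 8] : List (Fin 9)),
    ∃ e : Fin 17, endsL.getD e (0, 0) = (p, q) := by decide +kernel

theorem not_normal_G : ¬ IsNormal G := by
  rintro ⟨C, D, hC, hD, hCc, hDc, hCD⟩
  -- the set of vertices of `F` with a star containing a member of `D`
  obtain ⟨W, hW⟩ : ∃ W : Fin 9 → Prop, ∀ x, W x ↔ ∃ S ∈ D, ∀ e ∈ S, e ∈ star x :=
    ⟨_, fun _ => Iff.rfl⟩
  have hQ : ∀ K ∈ C, ∀ a ∈ K, ∀ b ∈ K, Q a b = true := by
    intro K hK a ha b hb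
    by_cases hab : a = b
    · simp [Q, hab]
    · have h : sh a b = false := hC K hK ha hb hab
      simp [Q, h]
  have hsat : ∀ K ∈ C, ∀ x, W x → ∃ e ∈ K, e ∈ star x := by
    intro K hK x hx
    obtain ⟨S, hS, hSx⟩ := (hW x).1 hx
    obtain ⟨e, heK, heS⟩ := hCD K hK S hS
    exact ⟨e, heK, hSx e heS⟩
  -- `W` is a vertex cover
  have hcov : ∀ e : Fin 17, W (endsL.getD e (0, 0)).1 ∨ W (endsL.getD e (0, 0)).2 := by
    intro e
    obtain ⟨S, hS, heS⟩ := hDc e
    have hind : ∀ a ∈ S, ∀ b ∈ S, sh a b = true := by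
      intro a ha b hb
      by_cases hab : a = b
      · rw [hab]
        exact sh_refl b
      · have := hD S hS ha hb hab
        cases h : sh a b
        · exact absurd h this
        · rfl
    by_cases h1 : ∀ a ∈ S, a ∈ star (endsL.getD e (0, 0)).1
    · exact Or.inl ((hW _).2 ⟨S, hS, h1⟩)
    · push Not at h1
      obtain ⟨a, ha, hna⟩ := h1
      refine Or.inr ((hW _).2 ⟨S, hS, fun b hb => ?_⟩)
      exact (no_triangle e a b ⟨hind e heS a ha, hind e heS b hb, hind a ha b hb⟩).resolve_left hna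
  by_cases hQs : W 6 ∧ W 7 ∧ W 8
  · obtain ⟨h6, h7, h8⟩ := hQs
    rcases hcov 0 with h | h
    · have h0 : W 0 := h
      obtain ⟨K, hK, hKe⟩ := hCc 3
      obtain ⟨f0, k0, s0⟩ := hsat K hK 0 h0
      obtain ⟨f6, k6, s6⟩ := hsat K hK 6 h6
      obtain ⟨f7, k7, s7⟩ := hsat K hK 7 h7
      obtain ⟨f8, k8, s8⟩ := hsat K hK 8 h8
      have := caseC f0 s0 f6 s6 f7 s7 f8 s8
      simp only [hQ K hK 3 hKe f0 k0, hQ K hK 3 hKe f6 k6, hQ K hK 3 hKe f7 k7,
        hQ K hK 3 hKe f8 k8, hQ K hK f0 k0 f6 k6, hQ K hK f0 k0 f7 k7, hQ K hK f0 k0 f8 k8,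
        hQ K hK f6 k6 f7 k7, hQ K hK f6 k6 f8 k8, hQ K hK f7 k7 f8 k8] at this
      exact absurd this (by decide)
    · have h1 : W 1 := h
      obtain ⟨K, hK, hKe⟩ := hCc 1
      obtain ⟨f0, k0, s0⟩ := hsat K hK 1 h1
      obtain ⟨f6, k6, s6⟩ := hsat K hK 6 h6
      obtain ⟨f7, k7, s7⟩ := hsat K hK 7 h7
      obtain ⟨f8, k8, s8⟩ := hsat K hK 8 h8
      have := caseD f0 s0 f6 s6 f7 s7 f8 s8
      simp only [hQ K hK 1 hKe f0 k0, hQ K hK 1 hKe f6 k6, hQ K hK 1 hKe f7 k7,
        hQ K hK 1 hKe f8 k8, hQ K hK f0 k0 f6 k6, hQ K hK f0 k0 f7 k7, hQ K hK f0 k0 f8 k8,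
        hQ K hK f6 k6 f7 k7, hQ K hK f6 k6 f8 k8, hQ K hK f7 k7 f8 k8] at this
      exact absurd this (by decide)
  · -- some vertex of `{6, 7, 8}` is missing, so all of `{2, 3, 4, 5}` are in `W`
    obtain ⟨q, hq, hWq⟩ : ∃ q ∈ ([6, 7, 8] : List (Fin 9)), ¬ W q := by
      by_contra hcon
      push Not at hcon
      exact hQs ⟨hcon 6 (by simp), hcon 7 (by simp), hcon 8 (by simp)⟩
    have hP : ∀ p ∈ ([2, 3, 4, 5] : List (Fin 9)), W p := by
      intro p hp
      obtain ⟨e, he⟩ := edge_of p hp q hq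
      have := hcov e
      rw [he] at this
      exact this.resolve_right hWq
    obtain ⟨K, hK, hKe⟩ := hCc 0
    obtain ⟨f0, k0, s0⟩ := hsat K hK 2 (hP 2 (by simp))
    obtain ⟨f6, k6, s6⟩ := hsat K hK 3 (hP 3 (by simp))
    obtain ⟨f7, k7, s7⟩ := hsat K hK 4 (hP 4 (by simp))
    obtain ⟨f8, k8, s8⟩ := hsat K hK 5 (hP 5 (by simp))
    have := caseA f0 s0 f6 s6 f7 s7 f8 s8
    simp only [hQ K hK 0 hKe f0 k0, hQ K hK 0 hKe f6 k6, hQ K hK 0 hKe f7 k7,
      hQ K hK 0 hKe f8 k8, hQ K hK f0 k0 f6 k6, hQ K hK f0 k0 f7 k7, hQ K hK f0 k0 f8 k8,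
      hQ K hK f6 k6 f7 k7, hQ K hK f6 k6 f8 k8, hQ K hK f7 k7 f8 k8] at this
    exact absurd this (by decide)

/-- There is a graph on 17 vertices which is a triangle graph and is not normal. -/
theorem result : ∃ G : SimpleGraph (Fin 17), IsTriangleGraph G ∧ ¬ IsNormal G :=
  ⟨G, triangle_G, not_normal_G⟩

end Pool.Agent.Results.MP_de1832_co.NonNormalTriangle
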